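import Pool.Agent.W2helper5.BP.C
import Pool.Agent.Y282.RB.A
import Pool.Agent.Y282.RB.A1
import Pool.Agent.Y282.RB.A2
import Pool.Agent.Y282.RB.A3
import Pool.Agent.Y282.RB.A4
import Pool.Agent.Y282.RB.B1
import Pool.Agent.Y282.RB.B2
import Pool.Agent.Y282.RB.F
import Pool.Agent.Y282.RB.F1
import Pool.Agent.Y282.RB.K
import Pool.Agent.Y282.RB.K2
import Pool.Agent.Y282.RB.K3

/-!
# All powers of the Beurling transform, exponents `p ≥ 200 n ^ 2`: the exact norm on the extremal
angular class

For every `n ≥ 1` and every real `p ≥ 200 n ^ 2` the norm of `T ^ n` in `L ^ p (ℂ)` on the functions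
`f (r e^{iθ}) = e^{2 n i θ} φ(r)` is exactly the constant `(1/q)_n / (1/p)_n` of the question.

Outline.  With `f (z) = z ^ (2 n) h^{(n)} (|z|²)` one has `T ^ n f (z) = (t ^ n h)^{(n)} (|z|²)`; these
two functions are the ends of a chain of `n` first order systems with states `Y_0, …, Y_{n-1}`, and the
inequality follows by integrating the derivative of `x (∑ k_j Y_j ²) ^ (p/2)` as soon as a pointwise
inequality for `n + 1` real numbers holds (files `Pool/Agent/Y282/RB`, where it is proved for `n = 2`).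
The files `Pool/Agent/W2helper5/BP/{A,B,C}.lean` prove this pointwise inequality for all `n` and all
`p ≥ 200 n ^ 2` (`star`): the quadratic form of the states bounds the first coordinate by
`1 + O(p⁻¹ (1 + log n))`, and three regimes are treated (small, medium and large variation).
-/

set_option autoImplicit false

open MeasureTheory

namespace Pool.Agent.W2helper5.Kept.AngularLargeExponents

/-- The `n`-th power of the Beurling transform: the Fourier multiplier with symbol
`(conj ξ / ξ) ^ n`, in the literal form of the frozen statement. -/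
noncomputable def T (n : ℕ) (f : ℂ → ℂ) (z : ℂ) : ℂ :=
  ∫ ξ : ℂ,
    Complex.exp (2 * (Real.pi : ℂ) * Complex.I * (((z.re * ξ.re + z.im * ξ.im : ℝ)) : ℂ)) *
      ((starRingEnd ℂ ξ / ξ) ^ n *
        ∫ x : ℂ, Complex.exp (-(2 * (Real.pi : ℂ) * Complex.I *
          (((x.re * ξ.re + x.im * ξ.im : ℝ)) : ℂ))) * f x)

/-- The constant `(1/q)_n / (1/p)_n` of the question. -/
noncomputable def K (n : ℕ) (p : ℝ) : ℝ :=
  (ascPochhammer ℝ n).eval (1 - 1 / p) / (ascPochhammer ℝ n).eval (1 / p)

/-- The functions of angular type `2 n`, that is `f (r e^{iθ}) = e^{2 n i θ} φ(r)`. -/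
def Angular (n : ℕ) (f : ℂ → ℂ) : Prop := ∀ a z : ℂ, ‖a‖ = 1 → f (a * z) = a ^ (2 * n) * f z

/-- For every `n ≥ 1` and every real `p ≥ 200 n ^ 2` the norm of `T ^ n` in `L ^ p` on the Schwartz
functions `f` of angular type `2 n` is exactly the constant `K n p = (1/q)_n / (1/p)_n` of the question:
the inequality of the question holds for all these `f`, and no smaller constant is admissible, even for
compactly supported `f`. -/
theorem result (n : ℕ) (p : ℝ) (hn : 1 ≤ n) (hp : 200 * (n : ℝ) ^ 2 ≤ p) :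
    (∀ f : SchwartzMap ℂ ℂ, Angular n f →
      eLpNorm (T n f) (ENNReal.ofReal p) (volume : Measure ℂ)
        ≤ ENNReal.ofReal (K n p) * eLpNorm f (ENNReal.ofReal p) (volume : Measure ℂ)) ∧
    (∀ c : ℝ, c < K n p → ∃ f : SchwartzMap ℂ ℂ, HasCompactSupport f ∧ Angular n f ∧
      ENNReal.ofReal c * eLpNorm f (ENNReal.ofReal p) (volume : Measure ℂ)
        < eLpNorm (T n f) (ENNReal.ofReal p) (volume : Measure ℂ)) := by
  have hn1 : (1 : ℝ) ≤ n := by exact_mod_cast hn
  have hnn : (1 : ℝ) ≤ (n : ℝ) ^ 2 := by nlinarith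
  have hp2 : 2 ≤ p := by linarith
  have hT : ∀ f, T n f = Y282.RB.Tn n f := fun f => rfl
  have hK : K n p = Y282.RB.Cn p n := (Y282.RB.K3.main n p (by linarith)).symm
  have hpos : 0 < Y282.RB.Cn p n := by
    unfold Y282.RB.Cn
    refine Finset.prod_pos (fun j _ => ?_)
    have h1 : (1 : ℝ) / p < 1 := by
      rw [div_lt_one (by linarith)]; linarith
    have h2 : (0 : ℝ) < 1 / p := by positivity
    have h3 : (0 : ℝ) ≤ (j : ℝ) := Nat.cast_nonneg j
    apply div_pos <;> linarith
  refine ⟨fun f hf => ?_, fun c hc => ?_⟩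
  · rw [hT, hK]
    refine Y282.RB.K.main n p (Y282.RB.Cn p n) hn hp2 hpos.le (fun g hg hs => ?_) f hf
    exact Y282.RB.A.main Y282.RB.A1.main Y282.RB.A2.main Y282.RB.A3.main Y282.RB.A4.main
      n p (Y282.RB.Cn p n) (by linarith) hpos.le
      (Y282.RB.B2.main Y282.RB.B1.main n p hn hp2 (Pool.Agent.W2helper5.BP.star hn hp)) g hg hs
  · rw [hK] at hc
    obtain ⟨g, hg, hs, hlt⟩ := Y282.RB.F.main Y282.RB.A2.main Y282.RB.A3.main Y282.RB.F1.main
      n p (max c 0) hn (by linarith) (le_max_right _ _) (max_lt hc hpos)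
    obtain ⟨f, hf1, hf2, hf3⟩ := Y282.RB.K2.main n g hg hs
    refine ⟨f, hf3, hf2, ?_⟩
    rw [hT, hf1]
    refine lt_of_le_of_lt ?_ hlt
    gcongr
    exact le_max_left _ _

end Pool.Agent.W2helper5.Kept.AngularLargeExponents
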